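import Pool.Agent.Results.MP_de94ef_pr.ShapeExp

/-!
The text of the frozen statement with the lower end `0` of the range replaced by a threshold below
`1/6` follows from the hand-in ShapeExp; its two halves are the statements of the retired
hand-ins OuterExp and InnerExp.
-/

open MeasureTheory ProbabilityTheory Filter
open scoped Pointwise

namespace Pool.Agent.Lib.MP_de94ef_pr.SH

lemma mono {Ω : Type} [MeasureSpace Ω] [IsProbabilityMeasure (volume : Measure Ω)]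
    {E F : ℝ → Set Ω} {g : ℝ → ℝ} (h : ∀ t, E t ⊆ F t)
    (hF : Asymptotics.IsBigO atTop (fun t => ((volume : Measure Ω) (F t)).toReal) g) :
    Asymptotics.IsBigO atTop (fun t => ((volume : Measure Ω) (E t)).toReal) g := by
  refine (Asymptotics.IsBigO.of_bound' (Eventually.of_forall fun t => ?_)).trans hF
  rw [Real.norm_of_nonneg ENNReal.toReal_nonneg, Real.norm_of_nonneg ENNReal.toReal_nonneg]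
  exact ENNReal.toReal_mono (measure_ne_top _ _) (measure_mono (h t))

theorem both : ∃ ζ0 : ℝ, ζ0 < 1 / 6 ∧
  ∀ (Ω : Type) [MeasureSpace Ω] [IsProbabilityMeasure (volume : Measure Ω)]
    (X : Sym2 (ℤ × ℤ) → Ω → ℝ) (T : Ω → ℤ × ℤ → ℝ) (μ : ℝ × ℝ → ℝ),
    (∀ e, Measurable (X e)) →
    iIndepFun X (volume : Measure Ω) →
    (∀ e, Measure.map (X e) (volume : Measure Ω) = expMeasure 1) →
    (∀ ω v, T ω v = sInf {s : ℝ | ∃ n : ℕ, ∃ p : ℕ → ℤ × ℤ, p 0 = 0 ∧ p n = v ∧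
        (∀ i < n, |(p (i + 1)).1 - (p i).1| + |(p (i + 1)).2 - (p i).2| = 1) ∧
        s = ∑ i ∈ Finset.range n, X s(p i, p (i + 1)) ω}) →
    (∀ (x : ℝ × ℝ) (c : ℝ), 0 ≤ c → μ (c • x) = c * μ x) →
    Continuous μ →
    (∀ z : ℤ × ℤ, ∀ᵐ ω ∂(volume : Measure Ω),
        Tendsto (fun n : ℕ => T ω ((n : ℤ) • z) / (n : ℝ)) atTop
          (nhds (μ ((z.1 : ℝ), (z.2 : ℝ))))) →
    ∀ ζ : ℝ, ζ0 < ζ → ζ < 2 / 3 → ∀ q : ℝ, 0 < q →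
      Asymptotics.IsBigO atTop
        (fun t : ℝ => ((volume : Measure Ω) {ω | ¬ ({x : ℝ × ℝ | ∃ v : ℤ × ℤ, T ω v ≤ t ∧
            |x.1 - (v.1 : ℝ)| ≤ 1 / 2 ∧ |x.2 - (v.2 : ℝ)| ≤ 1 / 2} ⊆
            ((1 + t ^ (-(2 / 3 : ℝ) + ζ)) * t) • {x : ℝ × ℝ | μ x ≤ 1})}).toReal)
        (fun t : ℝ => t ^ (-q)) ∧
      Asymptotics.IsBigO atTop
        (fun t : ℝ => ((volume : Measure Ω) {ω | ¬ (((1 - t ^ (-(2 / 3 : ℝ) + ζ)) * t) •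
            {x : ℝ × ℝ | μ x ≤ 1} ⊆ {x : ℝ × ℝ | ∃ v : ℤ × ℤ, T ω v ≤ t ∧
            |x.1 - (v.1 : ℝ)| ≤ 1 / 2 ∧ |x.2 - (v.2 : ℝ)| ≤ 1 / 2})}).toReal)
        (fun t : ℝ => t ^ (-q)) := by
  obtain ⟨ζ0, a, h⟩ := Pool.Agent.Results.MP_de94ef_pr.ShapeExp.result
  refine ⟨ζ0, a, fun Ω _ _ X T μ h1 h2 h3 h4 h5 h6 h7 ζ b1 b2 q hq => ?_⟩
  have k := h Ω X T μ h1 h2 h3 h4 h5 h6 h7 ζ b1 b2 q hq
  refine ⟨mono ?_ k, mono ?_ k⟩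
  · exact fun t ω hω hc => hω hc.2
  · exact fun t ω hω hc => hω hc.1

theorem outerExp : ∃ ζ0 : ℝ, ζ0 < 1 / 6 ∧
    ∀ (Ω : Type) [MeasureSpace Ω] [IsProbabilityMeasure (volume : Measure Ω)]
    (X : Sym2 (ℤ × ℤ) → Ω → ℝ) (T : Ω → ℤ × ℤ → ℝ) (μ : ℝ × ℝ → ℝ),
    (∀ e, Measurable (X e)) →
    iIndepFun X (volume : Measure Ω) →
    (∀ e, Measure.map (X e) (volume : Measure Ω) = expMeasure 1) →
    (∀ ω v, T ω v = sInf {s : ℝ | ∃ n : ℕ, ∃ p : ℕ → ℤ × ℤ, p 0 = 0 ∧ p n = v ∧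
        (∀ i < n, |(p (i + 1)).1 - (p i).1| + |(p (i + 1)).2 - (p i).2| = 1) ∧
        s = ∑ i ∈ Finset.range n, X s(p i, p (i + 1)) ω}) →
    (∀ (x : ℝ × ℝ) (c : ℝ), 0 ≤ c → μ (c • x) = c * μ x) →
    Continuous μ →
    (∀ z : ℤ × ℤ, ∀ᵐ ω ∂(volume : Measure Ω),
        Tendsto (fun n : ℕ => T ω ((n : ℤ) • z) / (n : ℝ)) atTop
          (nhds (μ ((z.1 : ℝ), (z.2 : ℝ))))) →
    ∀ ζ : ℝ, ζ0 < ζ → ζ < 2 / 3 → ∀ q : ℝ, 0 < q →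
      Asymptotics.IsBigO atTop
        (fun t : ℝ => ((volume : Measure Ω) {ω | ¬ ({x : ℝ × ℝ | ∃ v : ℤ × ℤ, T ω v ≤ t ∧
            |x.1 - (v.1 : ℝ)| ≤ 1 / 2 ∧ |x.2 - (v.2 : ℝ)| ≤ 1 / 2} ⊆
            ((1 + t ^ (-(2 / 3 : ℝ) + ζ)) * t) • {x : ℝ × ℝ | μ x ≤ 1})}).toReal)
        (fun t : ℝ => t ^ (-q)) := by
  obtain ⟨ζ0, a, h⟩ := both
  exact ⟨ζ0, a, fun Ω _ _ X T μ h1 h2 h3 h4 h5 h6 h7 ζ b1 b2 q hq =>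
    (h Ω X T μ h1 h2 h3 h4 h5 h6 h7 ζ b1 b2 q hq).1⟩

theorem innerExp : ∃ ζ0 : ℝ, ζ0 < 1 / 6 ∧
    ∀ (Ω : Type) [MeasureSpace Ω] [IsProbabilityMeasure (volume : Measure Ω)]
    (X : Sym2 (ℤ × ℤ) → Ω → ℝ) (T : Ω → ℤ × ℤ → ℝ) (μ : ℝ × ℝ → ℝ),
    (∀ e, Measurable (X e)) →
    iIndepFun X (volume : Measure Ω) →
    (∀ e, Measure.map (X e) (volume : Measure Ω) = expMeasure 1) →
    (∀ ω v, T ω v = sInf {s : ℝ | ∃ n : ℕ, ∃ p : ℕ → ℤ × ℤ, p 0 = 0 ∧ p n = v ∧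
        (∀ i < n, |(p (i + 1)).1 - (p i).1| + |(p (i + 1)).2 - (p i).2| = 1) ∧
        s = ∑ i ∈ Finset.range n, X s(p i, p (i + 1)) ω}) →
    (∀ (x : ℝ × ℝ) (c : ℝ), 0 ≤ c → μ (c • x) = c * μ x) →
    Continuous μ →
    (∀ z : ℤ × ℤ, ∀ᵐ ω ∂(volume : Measure Ω),
        Tendsto (fun n : ℕ => T ω ((n : ℤ) • z) / (n : ℝ)) atTop
          (nhds (μ ((z.1 : ℝ), (z.2 : ℝ))))) →
    ∀ ζ : ℝ, ζ0 < ζ → ζ < 2 / 3 → ∀ q : ℝ, 0 < q →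
      Asymptotics.IsBigO atTop
        (fun t : ℝ => ((volume : Measure Ω) {ω | ¬ (((1 - t ^ (-(2 / 3 : ℝ) + ζ)) * t) •
            {x : ℝ × ℝ | μ x ≤ 1} ⊆ {x : ℝ × ℝ | ∃ v : ℤ × ℤ, T ω v ≤ t ∧
            |x.1 - (v.1 : ℝ)| ≤ 1 / 2 ∧ |x.2 - (v.2 : ℝ)| ≤ 1 / 2})}).toReal)
        (fun t : ℝ => t ^ (-q)) := by
  obtain ⟨ζ0, a, h⟩ := both
  exact ⟨ζ0, a, fun Ω _ _ X T μ h1 h2 h3 h4 h5 h6 h7 ζ b1 b2 q hq =>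
    (h Ω X T μ h1 h2 h3 h4 h5 h6 h7 ζ b1 b2 q hq).2⟩

end Pool.Agent.Lib.MP_de94ef_pr.SH
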